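import Pool.Agent.H287.FH.CurveA
import Pool.Agent.H287.FH.CurveB
import Pool.Agent.H664.FH.Stm2

/-! FH project, job CURVEJ: log-linear forms with support `J` on germs of curves in the torus
(adapted from Pool/Agent/H287/FH/Curve.lean, helper287). -/

set_option autoImplicit false

namespace Pool.Agent.H190.FH

open Filter Topology Polynomial Pool.Agent Pool.Agent.W996.EC Pool.Agent.H664.FH Metric W973.EC Pool.Agent.H287.FH

theorem sumJ {n : ℕ} (J : Finset (Fin n)) {α : Fin n → ℝ} (hα : ∀ l, l ∉ J → α l = 0)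
    (f : Fin n → ℝ) : ∑ j : Fin J.card, α (J.equivFin.symm j) * f (J.equivFin.symm j) =
      ∑ l, α l * f l := by
  rw [← Finset.sum_subset (Finset.subset_univ J) (f := fun l => α l * f l)
    (fun l _ hl => by rw [hα l hl, zero_mul]), ← Finset.sum_coe_sort J]
  exact J.equivFin.symm.sum_comp (fun x : J => α x * f x)

theorem unbJ {n : ℕ} {F : ℂ[X][X]} {h : ℂ[X]} {R : Fin n → ℂ × ℂ → ℂ} (hc : Cov F h)
    (hR : ∀ i, Reg (TT F h) (R i)) (hR0 : ∀ i, ∀ p ∈ TT F h, R i p ≠ 0)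
    (hconn : IsPreconnected (TT F h)) (hpos : S_pos) {J : Finset (Fin n)}
    (hne : ∃ i ∈ J, ¬ ∃ c, ∀ p ∈ TT F h, R i p = c)
    {α : Fin n → ℝ} (hα : QJ J α) (σ : ℝ) : ∃ p ∈ TT F h, σ ≤ uu α R p := by
  classical
  obtain ⟨i, hi, hic⟩ := hne
  have hα' : QI (fun j : Fin J.card => α (J.equivFin.symm j)) := by
    intro m hm
    have h1 := hα.2 (fun l => if hl : l ∈ J then m (J.equivFin ⟨l, hl⟩) else 0)
      (fun l hl => by simp [hl]) (by
        rw [← hm, ← Finset.sum_subset (Finset.subset_univ J)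
          (fun l _ hl => by simp [hl]), ← Finset.sum_coe_sort J,
          ← J.equivFin.symm.sum_comp]
        refine Finset.sum_congr rfl fun j _ => ?_
        simp)
    funext j
    have h2 := congrFun h1 (J.equivFin.symm j)
    simpa using h2
  obtain ⟨p, hp, hp2⟩ := CURVE.unb (R := fun j : Fin J.card => R (J.equivFin.symm j)) hc
    (fun j => hR _) (fun j => hR0 _) hconn hpos
    ⟨J.equivFin ⟨i, hi⟩, by simpa using hic⟩ hα' σ
  refine ⟨p, hp, hp2.trans (le_of_eq ?_)⟩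
  exact sumJ J hα.1 (fun l => Real.log ‖R l p‖)

theorem curveJ : Pool.Agent.H664.FH.S_curveJ := by
  intro n J α z0 r g hα hr hg hg0 hncJ hdep
  have hnc : ∃ i, ∃ z ∈ ball z0 r, g z i ≠ g z0 i := by
    obtain ⟨i, _, h⟩ := hncJ
    exact ⟨i, h⟩
  have conn := W114.ECC.t_conn
  have loc := W973.EC.t_loc
  have pos : S_pos := W337.EC.t_pos W337.EC.t_end (W101.EC.t_bdd W605.EC.t_plf W605.EC.t_pli W114.ECR.t_res loc)
  -- consequences of the plane model
  have main : ∀ Q₀ : MvPolynomial (Fin n) ℂ, (∃ z ∈ ball z0 r, MvPolynomial.eval (g z) Q₀ ≠ 0) →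
      ∃ (F : ℂ[X][X]) (h : ℂ[X]) (R : Fin n → ℂ × ℂ → ℂ), Cov F h ∧ (∀ i, Reg (TT F h) (R i)) ∧
      (∀ i, ∀ p ∈ TT F h, R i p ≠ 0) ∧ IsPreconnected (TT F h) ∧
      (∀ p ∈ TT F h, (∀ Q : MvPolynomial (Fin n) ℂ, (∀ z ∈ ball z0 r, MvPolynomial.eval (g z) Q = 0) →
        MvPolynomial.eval (fun l => R l p) Q = 0) ∧ MvPolynomial.eval (fun l => R l p) Q₀ ≠ 0) ∧
      (∃ z1 ∈ ball z0 r, ∃ a b : ℂ → ℂ, AnalyticAt ℂ a z1 ∧ ContinuousAt b z1 ∧
        (¬ ∀ᶠ z in 𝓝 z1, a z = a z1) ∧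
        ∀ᶠ z in 𝓝 z1, (a z, b z) ∈ TT F h ∧ ∀ l, R l (a z, b z) = g z l) ∧
      (∀ σ : ℝ, ∃ p ∈ TT F h, σ ≤ uu α R p) ∧ (∀ σ : ℝ, ∃ p ∈ TT F h, uu α R p ≤ σ) := by
    intro Q₀ hQ₀
    obtain ⟨F, h, R, hc, hR, hR0, hrel, hgerm⟩ := CURVE.partA hr hg hg0 hnc hdep Q₀ hQ₀
    have hconn := conn F h hc
    have hne : ∃ i ∈ J, ¬ ∃ c, ∀ p ∈ TT F h, R i p = c := by
      obtain ⟨i, hiJ, z2, hz2, hi⟩ := hncJ
      refine ⟨i, hiJ, ?_⟩
      rintro ⟨c, hc'⟩
      obtain ⟨z1, hz1, a, b, -, -, -, hev⟩ := hgerm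
      have h1 : ∀ᶠ z in 𝓝 z1, g z i - c = 0 := by
        filter_upwards [hev] with z hz
        rw [← hz.2 i, hc' _ hz.1, sub_self]
      have hgi : DifferentiableOn ℂ (fun z => g z i - c) (ball z0 r) := by
        apply DifferentiableOn.sub_const
        exact fun z hz => (differentiableWithinAt_pi.1 (hg z hz)) i
      have h2 := (hgi.analyticOnNhd isOpen_ball).eqOn_zero_of_preconnected_of_eventuallyEq_zero
        (convex_ball z0 r).isPreconnected hz1 h1
      have h3 := h2 hz2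
      have h4 := h2 (mem_ball_self hr)
      simp only [Pi.zero_apply, sub_eq_zero] at h3 h4
      exact hi (by rw [h3, h4])
    have hα' : QJ J (-α) := by
      refine ⟨fun l hl => by rw [Pi.neg_apply, hα.1 l hl, neg_zero], fun m hm0 hm => ?_⟩
      apply hα.2 m hm0
      have : ∑ l, (m l : ℝ) * (-α) l = - ∑ l, (m l : ℝ) * α l := by
        rw [← Finset.sum_neg_distrib]
        exact Finset.sum_congr rfl fun l _ => by simp
      rw [this] at hm
      linarith
    refine ⟨F, h, R, hc, hR, hR0, hconn, hrel, hgerm, fun σ => unbJ hc hR hR0 hconn pos hne hα σ, fun σ => ?_⟩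
    obtain ⟨p, hp, h4⟩ := unbJ hc hR hR0 hconn pos hne hα' (-σ)
    refine ⟨p, hp, ?_⟩
    have h5 : uu (-α) R p = - uu α R p := by
      unfold uu
      rw [← Finset.sum_neg_distrib]
      refine Finset.sum_congr rfl fun i _ => ?_
      rw [Pi.neg_apply, neg_mul]
    linarith
  constructor
  · -- not constant
    rintro ⟨c, hconst⟩
    obtain ⟨F, h, R, hc, hR, hR0, hconn, -, ⟨z1, hz1, a, b, haan, hbc, hanc, hev⟩, hbig, hsmall⟩ :=
      main 1 ⟨z0, mem_ball_self hr, by simp⟩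
    obtain ⟨p1T, hp1R⟩ := hev.self_of_nhds
    -- `u` is locally constant at `(a z1, b z1)`
    have hLC : LC (TT F h) (uu α R) (a z1, b z1) := by
      obtain ⟨ρ, ψ, hρ, -, hψ0, -, hψe⟩ := loc F h hc (a z1) (b z1) p1T
      unfold LC
      rw [eventually_nhdsWithin_iff]
      have hcont : Tendsto (fun z => (a z, b z)) (𝓝 z1) (𝓝 (a z1, b z1)) :=
        (haan.continuousAt.prodMk hbc)
      have h1 : ∀ᶠ z in 𝓝 z1, ((a z, b z) ∈ TT F h → b z = ψ (a z)) := hcont.eventually hψe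
      have h2 : ∀ᶠ z in 𝓝 z1, z ∈ ball z0 r ∧ (a z, b z) ∈ TT F h ∧ (∀ l, R l (a z, b z) = g z l) ∧ b z = ψ (a z) := by
        filter_upwards [h1, hev, isOpen_ball.mem_nhds hz1] with z k1 k2 k3
        exact ⟨k3, k2.1, k2.2, k1 k2.1⟩
      have h3 : 𝓝 (a z1) ≤ Filter.map a (𝓝 z1) :=
        (haan.eventually_constant_or_nhds_le_map_nhds).resolve_left hanc
      have h4 : ∀ᶠ x in 𝓝 (a z1), ∃ z, (z ∈ ball z0 r ∧ (a z, b z) ∈ TT F h ∧ (∀ l, R l (a z, b z) = g z l) ∧ b z = ψ (a z)) ∧ a z = x := by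
        apply h3
        rw [Filter.mem_map]
        filter_upwards [h2] with z hz
        exact ⟨z, hz, rfl⟩
      have h5 : ∀ᶠ q : ℂ × ℂ in 𝓝 (a z1, b z1), ∃ z, (z ∈ ball z0 r ∧ (a z, b z) ∈ TT F h ∧ (∀ l, R l (a z, b z) = g z l) ∧ b z = ψ (a z)) ∧ a z = q.1 :=
        (continuousAt_fst (p := (a z1, b z1))).eventually h4
      have hval : ∀ z ∈ ball z0 r, (∀ l, R l (a z, b z) = g z l) → uu α R (a z, b z) = c := by
        intro z hz hz2
        rw [← hconst z hz]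
        unfold uu
        exact Finset.sum_congr rfl fun l _ => by rw [hz2 l]
      filter_upwards [h5, hψe] with q hq1 hq2 hqT
      obtain ⟨z, ⟨k1, k2, k3, k4⟩, k5⟩ := hq1
      have hqe : q = (a z, b z) := by
        apply Prod.ext
        · exact k5.symm
        · rw [hq2 hqT, ← k5, k4]
      rw [hqe, hval z k1 k3, hval z1 hz1 hp1R]
    have : PreconnectedSpace (TT F h) := Subtype.preconnectedSpace hconn
    have hlc : IsLocallyConstant (fun q : TT F h => LC (TT F h) (uu α R) q) := by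
      rw [IsLocallyConstant.iff_eventually_eq]
      intro q
      have h4 := lc_locally loc α hc hR hR0 q.1 q.2
      have h5 := (eventually_nhds_subtype_iff (TT F h) q
        (fun q' => LC (TT F h) (uu α R) q' ↔ LC (TT F h) (uu α R) q)).2 h4
      filter_upwards [h5] with q' hq'
      exact propext hq'
    have hall : ∀ q ∈ TT F h, LC (TT F h) (uu α R) q := by
      intro q hq
      have h6 := hlc.apply_eq_of_preconnectedSpace ⟨q, hq⟩ ⟨_, p1T⟩
      exact h6.symm ▸ hLC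
    have hlc2 : IsLocallyConstant (fun q : TT F h => uu α R q) := by
      rw [IsLocallyConstant.iff_eventually_eq]
      intro q
      exact (eventually_nhds_subtype_iff (TT F h) q (fun q' => uu α R q' = uu α R q)).2
        (hall q.1 q.2)
    obtain ⟨pc, hpc, hpc'⟩ := hbig (uu α R (a z1, b z1) + 1)
    have h7 := hlc2.apply_eq_of_preconnectedSpace ⟨pc, hpc⟩ ⟨_, p1T⟩
    simp only at h7
    linarith
  · intro Q₀ hQ₀ c
    obtain ⟨F, h, R, hc, hR, hR0, hconn, hrel, -, hbig, hsmall⟩ := main Q₀ hQ₀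
    obtain ⟨pa, hpa, hpa'⟩ := hsmall c
    obtain ⟨pb, hpb, hpb'⟩ := hbig c
    obtain ⟨p, hp, hpc⟩ := hconn.intermediate_value hpa hpb (uu_cont α hR hR0) ⟨hpa', hpb'⟩
    exact ⟨fun l => R l p, (hrel p hp).1, fun l => hR0 l p hp, (hrel p hp).2, hpc⟩

end Pool.Agent.H190.FH
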