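import Pool.Agent.H664.FH.Stm

/-! Project FH of helper664, job FSOLVE. -/

set_option autoImplicit false

namespace Pool.Agent.H190.FH

open Filter Topology Metric Set Pool.Agent.H664.FH

section fixpoint

variable {E : Type*} [NormedAddCommGroup E] [NormedSpace ℂ E]

theorem lip {c : E} {ρ B : ℝ} {h : E → E} (hρ : 0 < ρ)
    (hd : DifferentiableOn ℂ h (ball c ρ)) (hB : ∀ u ∈ ball c ρ, ‖h u‖ ≤ B) (h8 : 8 * B < ρ)
    {u v : E} (hu : u ∈ closedBall c (ρ / 4)) (hv : v ∈ closedBall c (ρ / 4)) :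
    dist (h u) (h v) ≤ 1 / 3 * dist u v := by
  rcases eq_or_ne u v with rfl | huv
  · simp
  have hn : 0 < ‖u - v‖ := norm_pos_iff.2 (sub_ne_zero.2 huv)
  have hu' : ‖u - c‖ ≤ ρ / 4 := by rwa [← dist_eq_norm]
  have hv' : ‖v - c‖ ≤ ρ / 4 := by rwa [← dist_eq_norm]
  set R : ℝ := 3 * ρ / (4 * ‖u - v‖) with hR
  have hRpos : 0 < R := by positivity
  have hmap : MapsTo (fun t : ℂ => v + t • (u - v)) (ball 0 R) (ball c ρ) := by
    intro t ht
    rw [mem_ball, dist_eq_norm] at ht ⊢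
    rw [sub_zero] at ht
    have h1 : ‖v + t • (u - v) - c‖ ≤ ‖v - c‖ + ‖t‖ * ‖u - v‖ := by
      rw [← norm_smul]
      have : v + t • (u - v) - c = (v - c) + t • (u - v) := by abel
      rw [this]
      exact norm_add_le _ _
    have h2 : ‖t‖ * ‖u - v‖ < 3 * ρ / 4 := by
      have := mul_lt_mul_of_pos_right ht hn
      have h3 : R * ‖u - v‖ = 3 * ρ / 4 := by rw [hR]; field_simp
      linarith
    linarith
  have hdif : DifferentiableOn ℂ (fun t : ℂ => h (v + t • (u - v))) (ball 0 R) := by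
    refine hd.comp ?_ hmap
    fun_prop
  have hmaps : MapsTo (fun t : ℂ => h (v + t • (u - v))) (ball 0 R)
      (closedBall ((fun t : ℂ => h (v + t • (u - v))) 0) (ρ / 4)) := by
    intro t ht
    have h1 := hB _ (hmap ht)
    have h2 := hB _ (hmap (mem_ball_self hRpos))
    rw [mem_closedBall, dist_eq_norm]
    have h3 := norm_sub_le (h (v + t • (u - v))) (h (v + (0 : ℂ) • (u - v)))
    have h4 : ‖(fun t : ℂ => h (v + t • (u - v))) t - (fun t : ℂ => h (v + t • (u - v))) 0‖ ≤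
      ‖h (v + t • (u - v))‖ + ‖h (v + (0 : ℂ) • (u - v))‖ := h3
    simp only at h2
    linarith
  have hR1 : (1 : ℝ) < R := by
    rw [hR, lt_div_iff₀ (by positivity)]
    have : ‖u - v‖ ≤ ρ / 2 := by
      have h1 : u - v = (u - c) - (v - c) := by abel
      rw [h1]
      exact (norm_sub_le _ _).trans (by linarith)
    linarith
  have hone : (1 : ℂ) ∈ ball (0 : ℂ) R := by simpa using hR1
  have key := Complex.dist_le_div_mul_dist_of_mapsTo_ball hdif hmaps hone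
  simp only [one_smul, zero_smul, add_zero, add_sub_cancel, dist_zero_right, norm_one, mul_one] at key
  refine key.trans (le_of_eq ?_)
  rw [hR, dist_eq_norm]
  field_simp
  try norm_num

theorem fix [CompleteSpace E] {ρ B : ℝ} {h : E → E} (hρ : 0 < ρ)
    (hd : DifferentiableOn ℂ h (ball 0 ρ)) (hB : ∀ u ∈ ball (0 : E) ρ, ‖h u‖ ≤ B)
    (h8 : 8 * B < ρ) : ∃ y ∈ ball (0 : E) ρ, y = h y := by
  have hsub : closedBall (0 : E) (ρ / 4) ⊆ ball 0 ρ := closedBall_subset_ball (by linarith)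
  have hmaps : MapsTo h (closedBall 0 (ρ / 4)) (closedBall 0 (ρ / 4)) := by
    intro u hu
    rw [mem_closedBall, dist_zero_right]
    have := hB u (hsub hu)
    linarith
  have hcon : ContractingWith (1 / 3 : NNReal) (hmaps.restrict _ _ _) := by
    refine ⟨by
      rw [div_lt_one (by norm_num)]; norm_num, ?_⟩
    refine LipschitzWith.of_dist_le_mul ?_
    intro u v
    have := lip hρ hd hB h8 u.2 v.2
    rw [Subtype.dist_eq, Subtype.dist_eq]
    simp only [MapsTo.val_restrict_apply]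
    simpa using this
  obtain ⟨y, hy, hfix, -⟩ := ContractingWith.exists_fixedPoint' (isClosed_closedBall.isComplete)
    hmaps hcon (x := (0 : E)) (mem_closedBall_self (by linarith)) (edist_ne_top _ _)
  exact ⟨y, hsub hy, hfix.symm⟩

end fixpoint

/-! ### Kronecker -/

theorem kron_dense {n : ℕ} (hn : 2 ≤ n) {α : Fin n → ℝ} (hα : QI α) (x η : ℝ) (hη : 0 < η) :
    ∃ a b : ℤ, |2 * Real.pi * ((a : ℝ) * α ⟨0, by omega⟩ + (b : ℝ) * α ⟨1, by omega⟩) - x| < η := by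
  set i0 : Fin n := ⟨0, by omega⟩ with hi0
  set i1 : Fin n := ⟨1, by omega⟩ with hi1
  have h01 : i0 ≠ i1 := by
    rw [hi0, hi1]; intro h; simp at h
  have hpi := Real.pi_pos
  have hirr : Irrational (α i0 / α i1) := by
    rintro ⟨q, hq⟩
    by_cases h1 : α i1 = 0
    · have := hα (fun l => if l = i1 then 1 else 0) (by
        rw [Finset.sum_eq_single i1]
        · simp [h1]
        · intro b _ hb; simp [hb]
        · intro h; exact absurd (Finset.mem_univ _) h)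
      have h2 := congrFun this i1
      simp at h2
    · have hden : (q.den : ℝ) ≠ 0 := by exact_mod_cast q.den_ne_zero
      have hq' : (q : ℝ) = (q.num : ℝ) / (q.den : ℝ) := by
        exact_mod_cast (Rat.num_div_den q).symm
      have h3 : (q.den : ℝ) * α i0 - (q.num : ℝ) * α i1 = 0 := by
        rw [hq'] at hq
        field_simp at hq
        linarith
      have := hα (fun l => if l = i0 then (q.den : ℤ) else if l = i1 then - q.num else 0) (by
        rw [Finset.sum_eq_add i0 i1 h01]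
        · simp [h01.symm]
          linarith
        · intro c _ hc
          simp [hc.1, hc.2]
        · intro h; exact absurd (Finset.mem_univ _) h
        · intro h; exact absurd (Finset.mem_univ _) h)
      have h2 := congrFun this i0
      simp at h2
  have hirr2 : Irrational ((2 * Real.pi * α i0) / (2 * Real.pi * α i1)) := by
    rw [mul_div_mul_left _ _ (by positivity)]
    exact hirr
  have hd := dense_addSubgroupClosure_pair_iff.mpr hirr2
  obtain ⟨y, hy, hyx⟩ := Metric.dense_iff.mp hd x η hη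
  rw [SetLike.mem_coe, AddSubgroup.mem_closure_pair] at hyx
  obtain ⟨a, b, hab⟩ := hyx
  refine ⟨a, b, ?_⟩
  rw [mem_ball, Real.dist_eq] at hy
  rw [← hab] at hy
  simp only [zsmul_eq_mul] at hy
  convert hy using 2
  ring

theorem kron_net {n : ℕ} (hn : 2 ≤ n) {α : Fin n → ℝ} (hα : QI α) (Θ η : ℝ) (hη : 0 < η) :
    ∃ C : ℝ, ∀ x ∈ Icc (-Θ) Θ, ∃ a b : ℤ, |(a : ℝ)| ≤ C ∧ |(b : ℝ)| ≤ C ∧
      |2 * Real.pi * ((a : ℝ) * α ⟨0, by omega⟩ + (b : ℝ) * α ⟨1, by omega⟩) - x| ≤ η := by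
  refine isCompact_Icc.induction_on (p := fun s => ∃ C : ℝ, ∀ x ∈ s, ∃ a b : ℤ,
    |(a : ℝ)| ≤ C ∧ |(b : ℝ)| ≤ C ∧
      |2 * Real.pi * ((a : ℝ) * α ⟨0, by omega⟩ + (b : ℝ) * α ⟨1, by omega⟩) - x| ≤ η) ?_ ?_ ?_ ?_
  · exact ⟨0, fun x hx => absurd hx (Set.notMem_empty x)⟩
  · rintro s t hst ⟨C, hC⟩
    exact ⟨C, fun x hx => hC x (hst hx)⟩
  · rintro s t ⟨C, hC⟩ ⟨C', hC'⟩
    refine ⟨max C C', fun x hx => ?_⟩
    rcases hx with hx | hx
    · obtain ⟨a, b, h1, h2, h3⟩ := hC x hx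
      exact ⟨a, b, h1.trans (le_max_left _ _), h2.trans (le_max_left _ _), h3⟩
    · obtain ⟨a, b, h1, h2, h3⟩ := hC' x hx
      exact ⟨a, b, h1.trans (le_max_right _ _), h2.trans (le_max_right _ _), h3⟩
  · intro x _
    obtain ⟨a, b, hab⟩ := kron_dense hn hα x (η / 2) (by linarith)
    refine ⟨ball x (η / 2), mem_nhdsWithin_of_mem_nhds (ball_mem_nhds _ (by linarith)),
      max |(a : ℝ)| |(b : ℝ)|, fun y hy => ⟨a, b, le_max_left _ _, le_max_right _ _, ?_⟩⟩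
    rw [mem_ball, Real.dist_eq] at hy
    have : 2 * Real.pi * ((a : ℝ) * α ⟨0, by omega⟩ + (b : ℝ) * α ⟨1, by omega⟩) - y =
      (2 * Real.pi * ((a : ℝ) * α ⟨0, by omega⟩ + (b : ℝ) * α ⟨1, by omega⟩) - x) - (y - x) := by
      ring
    rw [this]
    refine (abs_sub _ _).trans ?_
    linarith

theorem kron {n : ℕ} (hn : 2 ≤ n) {α : Fin n → ℝ} (hα : QI α) (Θ η : ℝ) (hη : 0 < η) :
    ∃ C : ℝ, 0 ≤ C ∧ ∀ (k : Fin n → ℝ) (θ : ℝ), |θ| ≤ Θ → ∃ M : Fin n → ℤ,
      (∀ l, |2 * Real.pi * (M l : ℝ) - k l| ≤ C) ∧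
      |∑ l, α l * (2 * Real.pi * (M l : ℝ) - k l) - θ| ≤ η := by
  set i0 : Fin n := ⟨0, by omega⟩ with hi0
  set i1 : Fin n := ⟨1, by omega⟩ with hi1
  have h01 : i0 ≠ i1 := by
    rw [hi0, hi1]; intro h; simp at h
  have hpi := Real.pi_pos
  set a0 : ℝ := ∑ l, |α l| with ha0
  obtain ⟨C, hC⟩ := kron_net hn hα (Θ + Real.pi * a0) η hη
  refine ⟨Real.pi + 2 * Real.pi * |C|, by positivity, fun k θ hθ => ?_⟩
  set M0 : Fin n → ℤ := fun l => round (k l / (2 * Real.pi)) with hM0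
  have hM0b : ∀ l, |2 * Real.pi * (M0 l : ℝ) - k l| ≤ Real.pi := by
    intro l
    have h1 := abs_sub_round (k l / (2 * Real.pi))
    have h2 : 2 * Real.pi * (M0 l : ℝ) - k l = -(2 * Real.pi) * (k l / (2 * Real.pi) - (M0 l : ℝ)) := by
      field_simp
      ring
    rw [h2, abs_mul, abs_neg, abs_of_pos (by positivity : (0 : ℝ) < 2 * Real.pi)]
    calc 2 * Real.pi * |k l / (2 * Real.pi) - (M0 l : ℝ)| ≤ 2 * Real.pi * (1 / 2) := by
          gcongr
      _ = Real.pi := by ring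
  set x : ℝ := θ - ∑ l, α l * (2 * Real.pi * (M0 l : ℝ) - k l) with hx
  have hxb : x ∈ Icc (-(Θ + Real.pi * a0)) (Θ + Real.pi * a0) := by
    rw [mem_Icc, ← abs_le]
    have h1 : |∑ l, α l * (2 * Real.pi * (M0 l : ℝ) - k l)| ≤ Real.pi * a0 := by
      refine (Finset.abs_sum_le_sum_abs _ _).trans ?_
      rw [ha0, Finset.mul_sum]
      refine Finset.sum_le_sum fun l _ => ?_
      rw [abs_mul, mul_comm]
      exact mul_le_mul_of_nonneg_right (hM0b l) (abs_nonneg _)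
    exact (abs_sub _ _).trans (by linarith)
  obtain ⟨a, b, hab1, hab2, hab3⟩ := hC x hxb
  set d : Fin n → ℤ := fun l => (if l = i0 then a else 0) + (if l = i1 then b else 0) with hd
  have hdb : ∀ l, |(d l : ℝ)| ≤ |C| := by
    intro l
    have hC1 : |(a : ℝ)| ≤ |C| := hab1.trans (le_abs_self _)
    have hC2 : |(b : ℝ)| ≤ |C| := hab2.trans (le_abs_self _)
    rw [hd]
    by_cases h0 : l = i0
    · have h1 : l ≠ i1 := by rw [h0]; exact h01
      simp [h0, h01, hC1]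
    · by_cases h1 : l = i1
      · simp [h1, h01.symm, hC2]
      · simp [h0, h1]
  have hdsum : ∑ l, α l * (d l : ℝ) = (a : ℝ) * α i0 + (b : ℝ) * α i1 := by
    rw [hd]
    push_cast
    simp only [mul_add, Finset.sum_add_distrib, mul_ite, mul_zero, Finset.sum_ite_eq',
      Finset.mem_univ, if_true]
    ring
  refine ⟨fun l => M0 l + d l, fun l => ?_, ?_⟩
  · have h1 : 2 * Real.pi * (((M0 l + d l : ℤ)) : ℝ) - k l =
        (2 * Real.pi * (M0 l : ℝ) - k l) + 2 * Real.pi * (d l : ℝ) := by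
      push_cast; ring
    rw [h1]
    refine (abs_add_le _ _).trans (add_le_add (hM0b l) ?_)
    rw [abs_mul, abs_of_pos (by positivity : (0 : ℝ) < 2 * Real.pi)]
    exact mul_le_mul_of_nonneg_left (hdb l) (by positivity)
  · have h1 : ∑ l, α l * (2 * Real.pi * (((M0 l + d l : ℤ)) : ℝ) - k l) - θ =
        2 * Real.pi * ((a : ℝ) * α i0 + (b : ℝ) * α i1) - x := by
      rw [← hdsum, hx, Finset.mul_sum]
      have : ∑ l, α l * (2 * Real.pi * (((M0 l + d l : ℤ)) : ℝ) - k l) =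
          ∑ l, α l * (2 * Real.pi * (M0 l : ℝ) - k l) +
          ∑ l, 2 * Real.pi * (α l * (d l : ℝ)) := by
        rw [← Finset.sum_add_distrib]
        refine Finset.sum_congr rfl fun l _ => ?_
        push_cast
        ring
      rw [this]
      ring
    rw [h1]
    exact hab3

/-! ### convergence -/

theorem conv {E : Type*} [NormedAddCommGroup E] [NormedSpace ℂ E]
    {F : Filter ℕ} [F.NeBot] {zs : ℂ} {ε C0 : ℝ} {f : ℕ → ℂ → E} {g : ℂ → E}
    (hf : ∀ᶠ j in F, DifferentiableOn ℂ (f j) (ball zs ε) ∧ ∀ z ∈ ball zs ε, ‖f j z‖ ≤ C0)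
    (hp : ∀ z ∈ ball zs ε, Tendsto (fun j => f j z) F (𝓝 (g z))) :
    TendstoLocallyUniformlyOn f g F (ball zs ε) := by
  rw [Metric.tendstoLocallyUniformlyOn_iff]
  intro η hη z0 hz0
  have hC0 : 0 ≤ C0 := by
    obtain ⟨j, hj⟩ := hf.exists
    exact (norm_nonneg _).trans (hj.2 z0 hz0)
  obtain ⟨d, hd, hdb⟩ : ∃ d : ℝ, 0 < d ∧ ball z0 d ⊆ ball zs ε := by
    obtain ⟨d, hd, h⟩ := Metric.isOpen_iff.mp isOpen_ball z0 hz0
    exact ⟨d, hd, h⟩
  have hlip : ∀ᶠ j in F, ∀ z ∈ ball z0 d, dist (f j z) (f j z0) ≤ (2 * C0) / d * dist z z0 := by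
    filter_upwards [hf] with j hj z hz
    refine Complex.dist_le_div_mul_dist_of_mapsTo_ball (hj.1.mono hdb) ?_ hz
    intro y hy
    rw [mem_closedBall, dist_eq_norm]
    refine (norm_sub_le _ _).trans ?_
    have h1 := hj.2 y (hdb hy)
    have h2 := hj.2 z0 hz0
    linarith
  have hlipg : ∀ z ∈ ball z0 d, dist (g z) (g z0) ≤ (2 * C0) / d * dist z z0 := by
    intro z hz
    refine le_of_tendsto ((hp z (hdb hz)).dist (hp z0 hz0)) ?_
    filter_upwards [hlip] with j hj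
    exact hj z hz
  -- small radius
  obtain ⟨κ, hκ, hκd, hκη⟩ : ∃ κ : ℝ, 0 < κ ∧ κ ≤ d ∧ (2 * C0) / d * κ ≤ η / 4 := by
    refine ⟨min d (η / 4 / ((2 * C0) / d + 1)), lt_min hd (by positivity), min_le_left _ _, ?_⟩
    have h1 : (2 * C0) / d * min d (η / 4 / ((2 * C0) / d + 1)) ≤
        (2 * C0) / d * (η / 4 / ((2 * C0) / d + 1)) := by
      gcongr
      exact min_le_right _ _
    refine h1.trans ?_
    rw [mul_div_assoc', div_le_iff₀ (by positivity)]
    have : 0 ≤ (2 * C0) / d := by positivity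
    nlinarith
  refine ⟨ball z0 κ, mem_nhdsWithin_of_mem_nhds (ball_mem_nhds _ hκ), ?_⟩
  have hpt : ∀ᶠ j in F, dist (f j z0) (g z0) < η / 4 :=
    (Metric.tendsto_nhds.mp (hp z0 hz0)) (η / 4) (by linarith)
  filter_upwards [hlip, hpt] with j h1 h2 z hz
  have hz' : z ∈ ball z0 d := ball_subset_ball hκd hz
  have hzκ : dist z z0 < κ := hz
  have h3 := h1 z hz'
  have h4 := hlipg z hz'
  have h5 : (2 * C0) / d * dist z z0 ≤ η / 4 := by
    refine le_trans ?_ hκη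
    gcongr
  calc dist (g z) (f j z) ≤ dist (g z) (g z0) + dist (g z0) (f j z0) + dist (f j z0) (f j z) :=
        dist_triangle4 _ _ _ _
    _ < η := by
        rw [dist_comm (g z0) (f j z0), dist_comm (f j z0) (f j z)]
        linarith

/-- a point with vanishing real part and non-vanishing derivative -/
theorem point {zs : ℂ} {ε : ℝ} {Φ : ℂ → ℂ} (hε : 0 < ε) (hΦ : DifferentiableOn ℂ Φ (ball zs ε))
    (hre : (Φ zs).re = 0) (hnc : ¬ ∀ z ∈ ball zs ε, Φ z = Φ zs) :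
    ∃ z0 ∈ ball zs ε, (Φ z0).re = 0 ∧ deriv Φ z0 ≠ 0 := by
  have hzs : zs ∈ ball zs ε := mem_ball_self hε
  have han : AnalyticOnNhd ℂ Φ (ball zs ε) := hΦ.analyticOnNhd isOpen_ball
  have hpc : IsPreconnected (ball zs ε) := (convex_ball zs ε).isPreconnected
  have hopen : ∀ s ⊆ ball zs ε, IsOpen s → IsOpen (Φ '' s) := by
    rcases han.is_constant_or_isOpen hpc with ⟨w, hw⟩ | h
    · exact absurd (fun z hz => by rw [hw z hz, hw zs hzs]) hnc
    · exact h
  have hder : AnalyticOnNhd ℂ (deriv Φ) (ball zs ε) := han.deriv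
  have hnz : ∀ᶠ z in 𝓝[≠] zs, deriv Φ z ≠ 0 := by
    rcases (hder zs hzs).eventually_eq_zero_or_eventually_ne_zero with h | h
    · exfalso
      have h0 : EqOn (deriv Φ) 0 (ball zs ε) :=
        hder.eqOn_zero_of_preconnected_of_eventuallyEq_zero hpc hzs h
      apply hnc
      intro z hz
      refine (convex_ball zs ε).is_const_of_fderivWithin_eq_zero (𝕜 := ℂ) hΦ ?_ hz hzs
      intro y hy
      rw [fderivWithin_of_isOpen isOpen_ball hy]
      ext
      rw [fderiv_eq_smul_deriv]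
      simp [h0 hy]
    · exact h
  rw [eventually_nhdsWithin_iff] at hnz
  obtain ⟨η, hη, hηb⟩ := Metric.eventually_nhds_iff.mp
    (hnz.and (isOpen_ball.mem_nhds hzs))
  have hsub : ball zs η ⊆ ball zs ε := fun z hz => (hηb hz).2
  have hopn := hopen _ hsub isOpen_ball
  have hmem : Φ zs ∈ Φ '' ball zs η := ⟨zs, mem_ball_self hη, rfl⟩
  obtain ⟨τ, hτ, hτb⟩ := Metric.isOpen_iff.mp hopn _ hmem
  have hin : Φ zs + ((τ / 2 : ℝ) : ℂ) * Complex.I ∈ ball (Φ zs) τ := by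
    rw [mem_ball, dist_eq_norm, add_sub_cancel_left, norm_mul, Complex.norm_I, mul_one,
      Complex.norm_real, Real.norm_eq_abs, abs_of_pos (by linarith)]
    linarith
  obtain ⟨z0, hz0, hz0e⟩ := hτb hin
  refine ⟨z0, hsub hz0, ?_, ?_⟩
  · rw [hz0e]
    simp [hre]
  · apply (hηb hz0).1
    intro h
    rw [mem_singleton_iff] at h
    rw [h] at hz0e
    have h2 : ((τ / 2 : ℝ) : ℂ) * Complex.I = 0 := by
      have := hz0e.symm
      rwa [add_eq_left] at this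
    rcases mul_eq_zero.mp h2 with h3 | h3
    · have : τ / 2 = 0 := by exact_mod_cast h3
      linarith
    · exact Complex.I_ne_zero h3

/-! ### the main argument -/

/-- the projection along `e` to `α·u = 0` -/
noncomputable def Qp {n : ℕ} (α e : Fin n → ℝ) (v : Fin n → ℂ) : Fin n → ℂ :=
  fun l => v l - (∑ i, (α i : ℂ) * v i) * (e l : ℂ)

theorem sum_Qp {n : ℕ} {α e : Fin n → ℝ} (he : ∑ l, α l * e l = 1) (v : Fin n → ℂ) :
    ∑ l, (α l : ℂ) * Qp α e v l = 0 := by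
  unfold Qp
  have h1 : ∑ l, (α l : ℂ) * (v l - (∑ i, (α i : ℂ) * v i) * (e l : ℂ)) =
      ∑ l, (α l : ℂ) * v l - (∑ i, (α i : ℂ) * v i) * ∑ l, (α l : ℂ) * (e l : ℂ) := by
    rw [Finset.mul_sum, ← Finset.sum_sub_distrib]
    refine Finset.sum_congr rfl fun l _ => by ring
  have h2 : ∑ l, (α l : ℂ) * (e l : ℂ) = 1 := by
    exact_mod_cast he
  rw [h1, h2]
  ring

theorem norm_dot {n : ℕ} (α : Fin n → ℝ) (v : Fin n → ℂ) :
    ‖∑ l, (α l : ℂ) * v l‖ ≤ (∑ l, |α l|) * ‖v‖ := by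
  refine (norm_sum_le _ _).trans ?_
  rw [Finset.sum_mul]
  refine Finset.sum_le_sum fun l _ => ?_
  rw [norm_mul, Complex.norm_real, Real.norm_eq_abs]
  exact mul_le_mul_of_nonneg_left (norm_le_pi_norm v l) (abs_nonneg _)

theorem norm_Qp {n : ℕ} (α e : Fin n → ℝ) (v : Fin n → ℂ) :
    ‖Qp α e v‖ ≤ (1 + (∑ l, |α l|) * ‖e‖) * ‖v‖ := by
  have h0 : 0 ≤ ∑ l, |α l| := Finset.sum_nonneg fun l _ => abs_nonneg _
  refine (pi_norm_le_iff_of_nonneg (by positivity)).mpr fun l => ?_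
  unfold Qp
  refine (norm_sub_le _ _).trans ?_
  rw [norm_mul, Complex.norm_real]
  have h1 := norm_le_pi_norm v l
  have h2 := norm_dot α v
  have h3 := norm_le_pi_norm e l
  calc ‖v l‖ + ‖∑ i, (α i : ℂ) * v i‖ * ‖e l‖ ≤ ‖v‖ + ((∑ l, |α l|) * ‖v‖) * ‖e‖ := by gcongr
    _ = _ := by ring

theorem differentiable_Qp {n : ℕ} (α e : Fin n → ℝ) : Differentiable ℂ (Qp α e) := by
  rw [differentiable_pi]
  intro l
  unfold Qp
  fun_prop

/-- Schwarz lemma in the direction `u`. -/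
theorem schwarz {n : ℕ} {Λ C0 : ℝ} {f : (Fin n → ℂ) → Fin n → ℂ}
    (hf : DifferentiableOn ℂ f (ball 0 Λ)) (hb : ∀ u ∈ ball (0 : Fin n → ℂ) Λ, ‖f u‖ ≤ C0)
    {u : Fin n → ℂ} (hu : u ∈ ball (0 : Fin n → ℂ) Λ) :
    ‖f u - f 0‖ ≤ 2 * C0 * ‖u‖ / Λ := by
  rcases eq_or_ne u 0 with rfl | hu0
  · simp
  have hn : 0 < ‖u‖ := norm_pos_iff.2 hu0
  have huΛ : ‖u‖ < Λ := by rwa [mem_ball, dist_zero_right] at hu
  have hΛ : 0 < Λ := hn.trans huΛ
  have hmap : MapsTo (fun t : ℂ => t • u) (ball 0 (Λ / ‖u‖)) (ball 0 Λ) := by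
    intro t ht
    rw [mem_ball, dist_zero_right] at ht ⊢
    rw [norm_smul]
    rwa [lt_div_iff₀ hn] at ht
  have hdif : DifferentiableOn ℂ (fun t : ℂ => f (t • u)) (ball 0 (Λ / ‖u‖)) :=
    hf.comp (by fun_prop) hmap
  have hmaps : MapsTo (fun t : ℂ => f (t • u)) (ball 0 (Λ / ‖u‖))
      (closedBall ((fun t : ℂ => f (t • u)) 0) (2 * C0)) := by
    intro t ht
    have h1 := hb _ (hmap ht)
    have h2 := hb _ (hmap (mem_ball_self (by positivity)))
    rw [mem_closedBall, dist_eq_norm]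
    refine (norm_sub_le _ _).trans ?_
    simp only at h1 h2 ⊢
    linarith
  have hone : (1 : ℂ) ∈ ball (0 : ℂ) (Λ / ‖u‖) := by
    rw [mem_ball, dist_zero_right, norm_one, lt_div_iff₀ hn]
    linarith
  have key := Complex.dist_le_div_mul_dist_of_mapsTo_ball hdif hmaps hone
  simp only [one_smul, zero_smul, dist_zero_right, norm_one, mul_one] at key
  rw [dist_eq_norm] at key
  refine key.trans (le_of_eq ?_)
  field_simp

/-- the fixed point step for one index -/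
theorem step {n : ℕ} {α e : Fin n → ℝ} (he : ∑ l, α l * e l = 1) {Λ C0 : ℝ}
    {k : Fin n → ℝ} {r : ℂ} {w : (Fin n → ℂ) → ℂ} {σ : Fin n → ℂ}
    {L : (Fin n → ℂ) → ℂ → Fin n → ℂ} {zs z0 : ℂ} {ε ε₁ : ℝ}
    (hw : DifferentiableOn ℂ w (ball 0 Λ))
    (hL : DifferentiableOn ℂ (fun v : (Fin n → ℂ) × ℂ => L v.1 v.2) (ball 0 Λ ×ˢ ball zs ε))
    (hLb : ∀ u ∈ ball (0 : Fin n → ℂ) Λ, ∀ z ∈ ball zs ε, ‖L u z‖ ≤ C0)
    (hε₁ : 0 < ε₁) (hz0 : ball z0 ε₁ ⊆ ball zs ε)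
    (D : ℂ) (hD : D ≠ 0) (M : Fin n → ℤ) (C₁ : ℝ)
    (hM : ∀ l, |2 * Real.pi * (M l : ℝ) - k l| ≤ C₁) (ρ : ℝ)
    (hρ : ρ = 8 * ((1 + (∑ l, |α l|) * ‖e‖) * (C0 + C₁)) + 9) (hρ0 : 0 < ρ)
    (hΛ : ‖Qp α e σ‖ + ρ ≤ Λ)
    (hmain : ∀ u ∈ ball (0 : Fin n → ℂ) Λ, ‖u‖ ≤ ‖Qp α e σ‖ + ρ → ∀ z ∈ ball z0 ε₁,
      ‖(∑ l, (α l : ℂ) * L u z l) + Complex.I * ((∑ l, α l * (2 * Real.pi * (M l : ℝ) - k l) : ℝ) : ℂ)
        - (r - ∑ l, (α l : ℂ) * σ l) - (w u + ∑ l, (α l : ℂ) * u l - r) - D * (z - z0)‖ ≤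
        ‖D‖ * ε₁ / 10) :
    ∃ (u : Fin n → ℂ) (z : ℂ), u ∈ ball (0 : Fin n → ℂ) Λ ∧ z ∈ ball zs ε ∧
      ∀ l, cp k e w u l = σ l + L u z l + 2 * Real.pi * Complex.I * (M l : ℂ) := by
  have ha0 : 0 ≤ ∑ l, |α l| := Finset.sum_nonneg fun l _ => abs_nonneg _
  set m : Fin n → ℂ := fun l => Complex.I * (((2 * Real.pi * (M l : ℝ) - k l : ℝ)) : ℂ) with hm
  set us : Fin n → ℂ := Qp α e σ with hus
  set κ : ℂ := ((ε₁ / ρ : ℝ) : ℂ) with hκ
  have hκn : ‖κ‖ = ε₁ / ρ := by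
    rw [hκ, Complex.norm_real, Real.norm_eq_abs, abs_of_pos (by positivity)]
  have hκ0 : κ ≠ 0 := by
    rw [← norm_pos_iff, hκn]; positivity
  have hDn : 0 < ‖D‖ := norm_pos_iff.mpr hD
  -- the auxiliary function
  set G : (Fin n → ℂ) × ℂ → ℂ := fun v => (∑ l, (α l : ℂ) * L (us + v.1) (z0 + κ * v.2) l) +
      Complex.I * ((∑ l, α l * (2 * Real.pi * (M l : ℝ) - k l) : ℝ) : ℂ)
        - (r - ∑ l, (α l : ℂ) * σ l) -
        (w (us + v.1) + ∑ l, (α l : ℂ) * (us + v.1) l - r) with hG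
  set h : (Fin n → ℂ) × ℂ → (Fin n → ℂ) × ℂ := fun v =>
    (Qp α e (fun l => L (us + v.1) (z0 + κ * v.2) l + m l), v.2 - (κ * D)⁻¹ * G v) with hh
  -- membership
  have hmem : ∀ v ∈ ball (0 : (Fin n → ℂ) × ℂ) ρ, us + v.1 ∈ ball (0 : Fin n → ℂ) Λ ∧
      ‖us + v.1‖ ≤ ‖us‖ + ρ ∧ z0 + κ * v.2 ∈ ball z0 ε₁ := by
    intro v hv
    rw [mem_ball, dist_zero_right, Prod.norm_def, max_lt_iff] at hv
    refine ⟨?_, ?_, ?_⟩
    · rw [mem_ball, dist_zero_right]
      exact (norm_add_le _ _).trans_lt (by linarith [hv.1])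
    · exact (norm_add_le _ _).trans (by linarith [hv.1])
    · rw [mem_ball, dist_eq_norm, add_sub_cancel_left, norm_mul, hκn]
      calc ε₁ / ρ * ‖v.2‖ < ε₁ / ρ * ρ := by
            have : 0 < ε₁ / ρ := by positivity
            exact mul_lt_mul_of_pos_left hv.2 this
        _ = ε₁ := by field_simp
  have hdL : DifferentiableOn ℂ (fun v : (Fin n → ℂ) × ℂ => L (us + v.1) (z0 + κ * v.2))
      (ball 0 ρ) := by
    have h1 : DifferentiableOn ℂ (fun v : (Fin n → ℂ) × ℂ => (us + v.1, z0 + κ * v.2))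
        (ball 0 ρ) := by fun_prop
    exact hL.comp h1 fun v hv => ⟨(hmem v hv).1, hz0 (hmem v hv).2.2⟩
  have hdw : DifferentiableOn ℂ (fun v : (Fin n → ℂ) × ℂ => w (us + v.1)) (ball 0 ρ) := by
    have h1 : DifferentiableOn ℂ (fun v : (Fin n → ℂ) × ℂ => us + v.1) (ball 0 ρ) := by fun_prop
    exact hw.comp h1 fun v hv => (hmem v hv).1
  have hdLl : ∀ l, DifferentiableOn ℂ (fun v : (Fin n → ℂ) × ℂ => L (us + v.1) (z0 + κ * v.2) l)
      (ball 0 ρ) := fun l => differentiableOn_pi.mp hdL l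
  have hdG : DifferentiableOn ℂ G (ball 0 ρ) := by
    rw [hG]
    refine DifferentiableOn.sub (DifferentiableOn.sub (DifferentiableOn.add ?_
      (differentiableOn_const _)) (differentiableOn_const _)) ?_
    · exact DifferentiableOn.fun_sum fun l _ => (hdLl l).const_mul _
    · refine DifferentiableOn.sub (DifferentiableOn.add hdw ?_) (differentiableOn_const _)
      refine DifferentiableOn.fun_sum fun l _ => ?_
      simp only [Pi.add_apply]
      fun_prop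
  have hdh : DifferentiableOn ℂ h (ball 0 ρ) := by
    rw [hh]
    refine DifferentiableOn.prodMk ?_ ?_
    · refine (differentiable_Qp α e).comp_differentiableOn ?_
      rw [differentiableOn_pi]
      intro l
      exact (hdLl l).add_const _
    · exact DifferentiableOn.sub (by fun_prop) (hdG.const_mul _)
  -- bounds
  have hmn : ‖m‖ ≤ C₁ := by
    have hC₁ : 0 ≤ C₁ ∨ IsEmpty (Fin n) := by
      rcases isEmpty_or_nonempty (Fin n) with h | ⟨⟨l⟩⟩
      · exact Or.inr h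
      · exact Or.inl ((abs_nonneg _).trans (hM l))
    rcases hC₁ with hC₁ | hE
    · refine (pi_norm_le_iff_of_nonneg hC₁).mpr fun l => ?_
      rw [hm]
      simp only [norm_mul, Complex.norm_I, one_mul, Complex.norm_real, Real.norm_eq_abs]
      exact hM l
    · exfalso
      have : ∑ l, α l * e l = 0 := by
        rw [Finset.univ_eq_empty, Finset.sum_empty]
      linarith
  have hB : ∀ v ∈ ball (0 : (Fin n → ℂ) × ℂ) ρ, ‖h v‖ ≤
      max ((1 + (∑ l, |α l|) * ‖e‖) * (C0 + C₁)) (ρ / 10) := by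
    intro v hv
    obtain ⟨h1, h2, h3⟩ := hmem v hv
    rw [hh, Prod.norm_def]
    refine max_le_max ?_ ?_
    · refine (norm_Qp α e _).trans ?_
      have h4 : ‖(fun l => L (us + v.1) (z0 + κ * v.2) l + m l)‖ ≤ C0 + C₁ :=
        (norm_add_le (L (us + v.1) (z0 + κ * v.2)) m).trans
          (add_le_add (hLb _ h1 _ (hz0 h3)) hmn)
      gcongr
    · have h4 := hmain _ h1 h2 _ h3
      rw [add_sub_cancel_left] at h4
      have h5 : v.2 - (κ * D)⁻¹ * G v = -((κ * D)⁻¹ * (G v - D * (κ * v.2))) := by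
        field_simp
        ring
      simp only
      rw [h5, norm_neg, norm_mul, norm_inv, norm_mul, hκn]
      calc (ε₁ / ρ * ‖D‖)⁻¹ * ‖G v - D * (κ * v.2)‖ ≤ (ε₁ / ρ * ‖D‖)⁻¹ * (‖D‖ * ε₁ / 10) := by
            refine mul_le_mul_of_nonneg_left ?_ (by positivity)
            exact h4
        _ = ρ / 10 := by field_simp
  obtain ⟨y, hy, hfix⟩ := fix hρ0 hdh hB (by
    rw [← lt_div_iff₀' (by norm_num : (0 : ℝ) < 8)]
    refine max_lt ?_ ?_
    · rw [lt_div_iff₀' (by norm_num : (0 : ℝ) < 8)]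
      rw [hρ]; linarith
    · rw [lt_div_iff₀' (by norm_num : (0 : ℝ) < 8)]
      linarith)
  obtain ⟨h1, h2, h3⟩ := hmem y hy
  refine ⟨us + y.1, z0 + κ * y.2, h1, hz0 h3, ?_⟩
  have hf1 : y.1 = Qp α e (fun l => L (us + y.1) (z0 + κ * y.2) l + m l) := by
    have := congrArg Prod.fst hfix
    exact this
  have hf2 : G y = 0 := by
    have h4 : y.2 = y.2 - (κ * D)⁻¹ * G y := congrArg Prod.snd hfix
    have h5 : (κ * D)⁻¹ * G y = 0 := by
      have := h4
      linear_combination this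
    rcases mul_eq_zero.mp h5 with h6 | h6
    · exact absurd h6 (inv_ne_zero (mul_ne_zero hκ0 hD))
    · exact h6
  have hdot : ∑ l, (α l : ℂ) * (us + y.1) l = 0 := by
    have h4 : ∑ l, (α l : ℂ) * (us + y.1) l = ∑ l, (α l : ℂ) * us l + ∑ l, (α l : ℂ) * y.1 l := by
      rw [← Finset.sum_add_distrib]
      exact Finset.sum_congr rfl fun l _ => by rw [Pi.add_apply]; ring
    rw [h4, hus, sum_Qp he, hf1, sum_Qp he, add_zero]
  have hw' : w (us + y.1) = (∑ l, (α l : ℂ) * L (us + y.1) (z0 + κ * y.2) l) +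
      (∑ l, (α l : ℂ) * m l) + ∑ l, (α l : ℂ) * σ l := by
    have h4 : G y = 0 := hf2
    rw [hG] at h4
    simp only at h4
    rw [hdot] at h4
    have h5 : Complex.I * ((∑ l, α l * (2 * Real.pi * (M l : ℝ) - k l) : ℝ) : ℂ) =
        ∑ l, (α l : ℂ) * m l := by
      rw [hm]
      push_cast
      rw [Finset.mul_sum]
      exact Finset.sum_congr rfl fun l _ => by ring
    rw [h5] at h4
    linear_combination -h4
  intro l
  unfold cp
  rw [hw', Pi.add_apply]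
  have h6 : y.1 l = (L (us + y.1) (z0 + κ * y.2) l + m l) -
      (∑ i, (α i : ℂ) * (L (us + y.1) (z0 + κ * y.2) i + m i)) * (e l : ℂ) := by
    conv_lhs => rw [hf1]
    rfl
  have h7 : us l = σ l - (∑ i, (α i : ℂ) * σ i) * (e l : ℂ) := rfl
  have h8 : ∑ i, (α i : ℂ) * (L (us + y.1) (z0 + κ * y.2) i + m i) =
      ∑ i, (α i : ℂ) * L (us + y.1) (z0 + κ * y.2) i + ∑ i, (α i : ℂ) * m i := by
    rw [← Finset.sum_add_distrib]
    exact Finset.sum_congr rfl fun i _ => by ring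
  have h9 : m l = Complex.I * (2 * Real.pi * (M l : ℂ) - (k l : ℂ)) := by
    rw [hm]; push_cast; ring
  rw [h8] at h6
  rw [h7]
  linear_combination h6 + h9

theorem fsolve : S_fsolve := by
  intro n α e F zs ε C0 Λ A δ k r w σ L Li hF hn hα he hε hΛ hAΛ hδ hev hlim hre hnc
  have hzs : zs ∈ ball zs ε := mem_ball_self hε
  have hΛ0 : ∀ᶠ j in F, 0 < Λ j := hΛ.eventually_gt_atTop 0
  have hC0 : 0 ≤ C0 := by
    obtain ⟨j, ⟨-, -, -, -, -, -, h⟩, hj⟩ := (hev.and hΛ0).exists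
    exact (norm_nonneg _).trans (h 0 (mem_ball_self hj) zs hzs)
  have hloc : TendstoLocallyUniformlyOn (fun j => L j 0) Li F (ball zs ε) := by
    refine conv (C0 := C0) ?_ hlim
    filter_upwards [hev, hΛ0] with j hj hj0
    obtain ⟨-, -, -, -, -, h1, h2⟩ := hj
    refine ⟨?_, h2 0 (mem_ball_self hj0)⟩
    have h3 : DifferentiableOn ℂ (fun z : ℂ => ((0 : Fin n → ℂ), z)) (ball zs ε) := by fun_prop
    exact h1.comp h3 fun z hz => ⟨mem_ball_self hj0, hz⟩
  have hLi : DifferentiableOn ℂ Li (ball zs ε) := by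
    refine hloc.differentiableOn ?_ isOpen_ball
    filter_upwards [hev, hΛ0] with j hj hj0
    obtain ⟨-, -, -, -, -, h1, h2⟩ := hj
    have h3 : DifferentiableOn ℂ (fun z : ℂ => ((0 : Fin n → ℂ), z)) (ball zs ε) := by fun_prop
    exact h1.comp h3 fun z hz => ⟨mem_ball_self hj0, hz⟩
  set Φ : ℂ → ℂ := fun z => ∑ l, (α l : ℂ) * Li z l with hΦ
  have hΦd : DifferentiableOn ℂ Φ (ball zs ε) :=
    DifferentiableOn.fun_sum fun l _ => (differentiableOn_pi.mp hLi l).const_mul _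
  have hΦre : (Φ zs).re = 0 := by
    rw [hΦ]
    simp only [Complex.re_sum, Complex.re_ofReal_mul]
    exact hre
  obtain ⟨z0, hz0, hz0re, hD⟩ := point hε hΦd hΦre hnc
  set D := deriv Φ z0 with hDdef
  have hDn : 0 < ‖D‖ := norm_pos_iff.mpr hD
  obtain ⟨ε₁, hε₁, hsub, hlin⟩ : ∃ ε₁ : ℝ, 0 < ε₁ ∧ closedBall z0 ε₁ ⊆ ball zs ε ∧
      ∀ z ∈ closedBall z0 ε₁, ‖Φ z - Φ z0 - D * (z - z0)‖ ≤ ‖D‖ / 20 * ‖z - z0‖ := by
    have hda : HasDerivAt Φ D z0 := ((hΦd z0 hz0).differentiableAt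
      (isOpen_ball.mem_nhds hz0)).hasDerivAt
    have h1 := (hasDerivAt_iff_isLittleO.mp hda).def (c := ‖D‖ / 20) (by positivity)
    have h2 := h1.and (isOpen_ball.mem_nhds hz0)
    obtain ⟨η, hη, hηb⟩ := Metric.eventually_nhds_iff.mp h2
    refine ⟨η / 2, by positivity, fun z hz => ?_, fun z hz => ?_⟩
    · rw [mem_closedBall] at hz
      exact (hηb (by linarith)).2
    · rw [mem_closedBall] at hz
      have := (hηb (by linarith : dist z z0 < η)).1
      rw [smul_eq_mul, mul_comm (z - z0)] at this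
      exact this
  obtain ⟨C₁, hC₁, hkron⟩ := kron hn hα (C0 + ‖Φ z0‖) (‖D‖ * ε₁ / 40) (by positivity)
  set a : ℝ := ∑ l, |α l| with ha
  have ha0 : 0 ≤ a := Finset.sum_nonneg fun l _ => abs_nonneg _
  set CQ : ℝ := 1 + a * ‖e‖ with hCQ
  have hCQ0 : 0 < CQ := by positivity
  set ρ : ℝ := 8 * (CQ * (C0 + C₁)) + 9 with hρ
  have hρ0 : 0 < ρ := by positivity
  set τ : ℝ := ‖D‖ * ε₁ / (40 * (2 * a + 2)) with hτ
  have hτ0 : 0 < τ := by positivity
  have hτ1 : (2 * a + 2) * τ = ‖D‖ * ε₁ / 40 := by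
    rw [hτ]; field_simp
  have e1 : ∀ᶠ j in F, ∀ z ∈ closedBall z0 ε₁, ‖L j 0 z - Li z‖ ≤ τ := by
    have h1 := (tendstoLocallyUniformlyOn_iff_forall_isCompact isOpen_ball).mp hloc
      (closedBall z0 ε₁) hsub (isCompact_closedBall _ _)
    have h2 := (Metric.tendstoUniformlyOn_iff.mp h1) τ hτ0
    filter_upwards [h2] with j hj z hz
    have := hj z hz
    rw [dist_comm, dist_eq_norm] at this
    exact this.le
  have hlim2 : Tendsto (fun j => (CQ * A j + ρ) / Λ j) F (𝓝 0) := by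
    have h1 : Tendsto (fun j => CQ * (A j / Λ j) + ρ / Λ j) F (𝓝 (CQ * 0 + 0)) :=
      (hAΛ.const_mul CQ).add (tendsto_const_nhds.div_atTop hΛ)
    rw [mul_zero, add_zero] at h1
    refine h1.congr fun j => ?_
    ring
  have e2 : ∀ᶠ j in F, (CQ * A j + ρ) / Λ j < min 1 (τ / (2 * C0 + 1)) := by
    have : (0 : ℝ) < min 1 (τ / (2 * C0 + 1)) := lt_min one_pos (by positivity)
    exact hlim2.eventually_lt_const this
  have e3 : ∀ᶠ j in F, δ j < τ := hδ.eventually_lt_const hτ0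
  filter_upwards [hev, hΛ0, e1, e2, e3] with j hj hj0 hj1 hj2 hj3
  obtain ⟨hw, hwb, hσ, hβre, hβim, hLd, hLb⟩ := hj
  set β : ℂ := r j - ∑ l, (α l : ℂ) * σ j l with hβ
  obtain ⟨M, hM1, hM2⟩ := hkron (k j) (β.im - (Φ z0).im) (by
    refine (abs_sub _ _).trans (add_le_add hβim (Complex.abs_im_le_norm _)))
  have hQσ : ‖Qp α e (σ j)‖ ≤ CQ * A j :=
    (norm_Qp α e (σ j)).trans (mul_le_mul_of_nonneg_left hσ hCQ0.le)
  have hΛj : CQ * A j + ρ < Λ j := by
    have := hj2.trans_le (min_le_left _ _)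
    rwa [div_lt_one hj0] at this
  have hsub' : ball z0 ε₁ ⊆ ball zs ε := ball_subset_closedBall.trans hsub
  have hQρ : ‖Qp α e (σ j)‖ + ρ ≤ Λ j := by linarith
  refine ⟨M, step (r := r j) he hw hLd hLb hε₁ hsub' D hD M C₁ hM1 ρ hρ hρ0 hQρ ?_⟩
  · intro u hu hun z hz
    have hz' : z ∈ closedBall z0 ε₁ := ball_subset_closedBall hz
    have hzz : z ∈ ball zs ε := hsub hz'
    have b1 : ‖∑ l, (α l : ℂ) * (L j u z - L j 0 z) l‖ ≤ a * τ := by
      refine (norm_dot α _).trans (mul_le_mul_of_nonneg_left ?_ ha0)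
      have h1 : DifferentiableOn ℂ (fun u => L j u z) (ball 0 (Λ j)) := by
        have h3 : DifferentiableOn ℂ (fun u : Fin n → ℂ => (u, z)) (ball 0 (Λ j)) := by fun_prop
        exact hLd.comp h3 fun u hu => ⟨hu, hzz⟩
      have h2 := schwarz h1 (fun u hu => hLb u hu z hzz) hu
      refine h2.trans ?_
      have h4 : ‖u‖ ≤ CQ * A j + ρ := hun.trans (by linarith)
      have h5 : ‖u‖ / Λ j ≤ τ / (2 * C0 + 1) := by
        refine le_trans ?_ (hj2.trans_le (min_le_right _ _)).le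
        gcongr
      calc 2 * C0 * ‖u‖ / Λ j = 2 * C0 * (‖u‖ / Λ j) := by ring
        _ ≤ 2 * C0 * (τ / (2 * C0 + 1)) := by gcongr
        _ ≤ τ := by
            rw [mul_div_assoc', div_le_iff₀ (by positivity)]
            nlinarith
    have b2 : ‖∑ l, (α l : ℂ) * (L j 0 z - Li z) l‖ ≤ a * τ :=
      (norm_dot α _).trans (mul_le_mul_of_nonneg_left (hj1 z hz') ha0)
    have b3 : ‖Φ z - Φ z0 - D * (z - z0)‖ ≤ ‖D‖ * ε₁ / 20 := by
      refine (hlin z hz').trans ?_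
      rw [mem_closedBall, dist_eq_norm] at hz'
      calc ‖D‖ / 20 * ‖z - z0‖ ≤ ‖D‖ / 20 * ε₁ := by gcongr
        _ = _ := by ring
    have b4 : ‖Φ z0 + Complex.I *
        ((∑ l, α l * (2 * Real.pi * (M l : ℝ) - k j l) : ℝ) : ℂ) - β‖ ≤ τ + ‖D‖ * ε₁ / 40 := by
      refine (Complex.norm_le_abs_re_add_abs_im _).trans (add_le_add ?_ ?_)
      · rw [Complex.sub_re, Complex.add_re, hz0re, Complex.mul_re, Complex.I_re, Complex.I_im,
          Complex.ofReal_im, zero_mul, mul_zero, sub_zero, add_zero, zero_sub, abs_neg]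
        exact hβre.trans hj3.le
      · rw [Complex.sub_im, Complex.add_im, Complex.mul_im, Complex.I_re, Complex.I_im,
          Complex.ofReal_im, zero_mul, one_mul, zero_add, Complex.ofReal_re]
        refine le_trans (le_of_eq ?_) hM2
        congr 1
        ring
    have b5 : ‖w j u + ∑ l, (α l : ℂ) * u l - r j‖ ≤ τ := (hwb u hu).trans hj3.le
    have hsum : (∑ l, (α l : ℂ) * L j u z l) +
        Complex.I * ((∑ l, α l * (2 * Real.pi * (M l : ℝ) - k j l) : ℝ) : ℂ)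
        - (r j - ∑ l, (α l : ℂ) * σ j l) - (w j u + ∑ l, (α l : ℂ) * u l - r j) - D * (z - z0) =
        ∑ l, (α l : ℂ) * (L j u z - L j 0 z) l + ∑ l, (α l : ℂ) * (L j 0 z - Li z) l +
        (Φ z - Φ z0 - D * (z - z0)) + (Φ z0 + Complex.I *
        ((∑ l, α l * (2 * Real.pi * (M l : ℝ) - k j l) : ℝ) : ℂ) - β) -
        (w j u + ∑ l, (α l : ℂ) * u l - r j) := by
      simp only [Pi.sub_apply, mul_sub, Finset.sum_sub_distrib]
      rw [hβ, hΦ]
      ring
    rw [hsum]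
    have c1 := norm_sub_le (∑ l, (α l : ℂ) * (L j u z - L j 0 z) l +
        ∑ l, (α l : ℂ) * (L j 0 z - Li z) l +
        (Φ z - Φ z0 - D * (z - z0)) + (Φ z0 + Complex.I *
        ((∑ l, α l * (2 * Real.pi * (M l : ℝ) - k j l) : ℝ) : ℂ) - β))
        (w j u + ∑ l, (α l : ℂ) * u l - r j)
    have c2 := norm_add_le (∑ l, (α l : ℂ) * (L j u z - L j 0 z) l +
        ∑ l, (α l : ℂ) * (L j 0 z - Li z) l + (Φ z - Φ z0 - D * (z - z0))) (Φ z0 + Complex.I *
        ((∑ l, α l * (2 * Real.pi * (M l : ℝ) - k j l) : ℝ) : ℂ) - β)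
    have c3 := norm_add_le (∑ l, (α l : ℂ) * (L j u z - L j 0 z) l +
        ∑ l, (α l : ℂ) * (L j 0 z - Li z) l) (Φ z - Φ z0 - D * (z - z0))
    have c4 := norm_add_le (∑ l, (α l : ℂ) * (L j u z - L j 0 z) l)
        (∑ l, (α l : ℂ) * (L j 0 z - Li z) l)
    linarith

end Pool.Agent.H190.FH
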